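import Mathlib
import Pool.Agent.R221.SK.Defs
import Pool.Agent.R221.SK.Level
import Pool.Agent.R221.SK.Main
import Pool.Agent.R221.SK.Cheb
import Pool.Agent.R221.SK.Rec
import Pool.Agent.R221.SK.Fwd
import Pool.Agent.R221.SK.Bwd
import Pool.Agent.R221.SK.Comb
import Pool.Agent.R221.SK.Cpx

/-! Powers of positive strongly Kreiss bounded operators on `L^p`, `1 < p < ∞`, grow at most
polylogarithmically; hence the optimal polynomial exponent is `0` for every `p`. -/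

namespace Pool.Agent.Results.MP_62709f_an.PolylogGrowth
open MeasureTheory
open scoped ENNReal
universe u

section General
variable {X : Type u} [NormedAddCommGroup X] [NormedSpace ℂ X]

/-- The spectrum lies in the closed unit disc. -/
def SpectrumInDisc (T : X →L[ℂ] X) : Prop := spectrum ℂ T ⊆ Metric.closedBall 0 1

/-- The bound `‖(z - T)⁻ᵏ‖ ≤ M / (|z| - 1)ᵏ`. -/
def ResolventBound (T : X →L[ℂ] X) (M : ℝ) (z : ℂ) (k : ℕ) : Prop :=
  ‖(resolvent T z) ^ k‖ ≤ M / (‖z‖ - 1) ^ k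

/-- Strong (uniform) Kreiss boundedness. -/
def StronglyKreissBounded (T : X →L[ℂ] X) : Prop :=
  SpectrumInDisc T ∧ ∃ M : ℝ, ∀ z : ℂ, 1 < ‖z‖ → ∀ k : ℕ, 1 ≤ k → ResolventBound T M z k

/-- `‖T ^ n‖ ≤ C n^θ` for all `n ≥ 1` and some `C`. -/
def PowersBoundedBy (θ : ℝ) (T : X →L[ℂ] X) : Prop :=
  ∃ C : ℝ, ∀ n : ℕ, 1 ≤ n → ‖T ^ n‖ ≤ C * (n : ℝ) ^ θ

/-- `‖T ^ n‖ ≤ C (1 + log n)^κ` for all `n ≥ 1` and some `C`, `κ`. -/
def PowersPolylog (T : X →L[ℂ] X) : Prop :=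
  ∃ (C : ℝ) (κ : ℕ), ∀ n : ℕ, 1 ≤ n → ‖T ^ n‖ ≤ C * (1 + Real.log n) ^ κ

end General

section LpOp
variable {S : Type u} [MeasurableSpace S]

/-- The complex space `L^p(S, μ)` (Mathlib's `Lp ℂ p μ`). -/
def LpC (p : ℝ≥0∞) (μ : Measure S) : Type u := Lp ℂ p μ

noncomputable instance instNormed (p : ℝ≥0∞) [Fact (1 ≤ p)] (μ : Measure S) :
    NormedAddCommGroup (LpC p μ) := (Lp.instNormedAddCommGroup : NormedAddCommGroup (Lp ℂ p μ))

noncomputable instance instSpace (p : ℝ≥0∞) [Fact (1 ≤ p)] (μ : Measure S) :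
    NormedSpace ℂ (LpC p μ) := (Lp.instNormedSpace : NormedSpace ℂ (Lp ℂ p μ))

variable {μ : Measure S} {p : ℝ≥0∞}

/-- The function underlying an element of `L^p`. -/
noncomputable def fn (f : LpC p μ) : S → ℂ := fun x => (show Lp ℂ p μ from f) x

/-- `f ≥ 0` almost everywhere, for `f` in complex `L^p` (real part `≥ 0`, imaginary part `0`). -/
def NonnegAE (f : LpC p μ) : Prop := ∀ᵐ x ∂μ, 0 ≤ (fn f x).re ∧ (fn f x).im = 0

/-- A bounded operator on complex `L^p` is positive if it maps a.e. nonnegative functions to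
a.e. nonnegative functions. -/
def IsPositive [Fact (1 ≤ p)] (T : LpC p μ →L[ℂ] LpC p μ) : Prop :=
  ∀ f : LpC p μ, NonnegAE f → NonnegAE (T f)

end LpOp

/-- The exponent `θ` is admissible for `p`: the powers of every positive strongly Kreiss bounded
operator on every `L^p(S)` are `O(n^θ)`. -/
def Admissible (p : ℝ≥0∞) [Fact (1 ≤ p)] (θ : ℝ) : Prop :=
  ∀ (S : Type u) [MeasurableSpace S] (μ : Measure S) (T : LpC p μ →L[ℂ] LpC p μ),
    IsPositive T → StronglyKreissBounded T → PowersBoundedBy θ T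

/-- The powers of every positive strongly Kreiss bounded operator on every `L^p(S)` grow at most
polylogarithmically. -/
def AlwaysPolylog (p : ℝ≥0∞) [Fact (1 ≤ p)] : Prop :=
  ∀ (S : Type u) [MeasurableSpace S] (μ : Measure S) (T : LpC p μ →L[ℂ] LpC p μ),
    IsPositive T → StronglyKreissBounded T → PowersPolylog T

/-- The optimal exponent `θ_p`: infimum of the admissible `θ ∈ [0, 1/2)`. -/
noncomputable def theta (p : ℝ≥0∞) [Fact (1 ≤ p)] : ℝ :=
  sInf {θ : ℝ | 0 ≤ θ ∧ θ < 1 / 2 ∧ Admissible.{u} p θ}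

/-- For `1 < p < ∞`: powers of positive strongly Kreiss bounded operators on `L^p` are
`O((log n)^κ)`; every `θ > 0` is admissible; and `θ_p = 0`. -/
theorem result (p : ℝ≥0∞) [Fact (1 ≤ p)] (h1 : 1 < p) (h2 : p < ⊤) :
    AlwaysPolylog.{u} p ∧ (∀ θ : ℝ, 0 < θ → Admissible.{u} p θ) ∧ theta.{u} p = 0 := by
  have hcheb := Pool.Agent.R221.SK.cheb
  have A : AlwaysPolylog.{u} p := by
    intro S _ μ T hT hS
    exact Pool.Agent.R221.SK.polylog Pool.Agent.R221.SK.level (Pool.Agent.R221.SK.fwd hcheb)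
      (Pool.Agent.R221.SK.bwd hcheb) Pool.Agent.R221.SK.rec_ Pool.Agent.R221.SK.comb
      Pool.Agent.R221.SK.cpx μ p h1 h2 T hT hS
  have B : ∀ θ : ℝ, 0 < θ → Admissible.{u} p θ := by
    intro θ hθ S _ μ T hT hS
    obtain ⟨D, κ, H⟩ := A S μ T hT hS
    obtain ⟨C, hC⟩ := Pool.Agent.R221.SK.polylog_le_rpow D κ θ hθ
    exact ⟨C, fun n hn => (H n hn).trans (hC n hn)⟩
  refine ⟨A, B, ?_⟩
  apply le_antisymm
  · apply le_of_forall_pos_le_add
    intro ε hε
    have hm : min ε (1 / 4) ∈ {θ : ℝ | 0 ≤ θ ∧ θ < 1 / 2 ∧ Admissible.{u} p θ} := by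
      refine ⟨by positivity, ?_, B _ (by positivity)⟩
      exact (min_le_right _ _).trans_lt (by norm_num)
    have hb : BddBelow {θ : ℝ | 0 ≤ θ ∧ θ < 1 / 2 ∧ Admissible.{u} p θ} :=
      ⟨0, fun x hx => hx.1⟩
    have := csInf_le hb hm
    unfold theta
    linarith [min_le_left ε (1 / 4 : ℝ)]
  · exact Real.sInf_nonneg fun x hx => hx.1

end Pool.Agent.Results.MP_62709f_an.PolylogGrowth
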